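import Mathlib
import Pool.Agent.Collatz3.SBFinal

set_option autoImplicit false

namespace Pool.Agent.Results.MP_f7abf1_nt.LargeDeviations

/-- The `3x+1` function. -/
def T (n : ℕ) : ℕ := if n % 2 = 0 then n / 2 else (3 * n + 1) / 2

/-- `γ₁ = (½ log (4/3))⁻¹`. -/
noncomputable def γ₁ : ℝ := ((1 / 2) * Real.log (4 / 3))⁻¹

/-- The rate `I(β) = β g(1/β)`, `g(a) = sup_θ (θ a - log (½ (2^θ + (2/3)^θ)))`. -/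
noncomputable def I (β : ℝ) : ℝ :=
  β * ⨆ θ : ℝ, (θ * (1 / β) - Real.log ((1 / 2) * ((2 : ℝ) ^ θ + (2 / 3 : ℝ) ^ θ)))

/-- The number of the `1 ≤ n ≤ x` with `T^(k)(n) ≤ n^δ` for some `0 ≤ k ≤ β (1 - δ) log n`. -/
noncomputable def Fast (δ β : ℝ) (x : ℕ) : ℕ :=
  {n : ℕ | 1 ≤ n ∧ n ≤ x ∧ ∃ k : ℕ, (k : ℝ) ≤ β * ((1 - δ) * Real.log n) ∧
    ((T^[k] n : ℕ) : ℝ) ≤ (n : ℝ) ^ δ}.ncard

/-- The number of the `1 ≤ n ≤ x` with `T^(k)(n) > n^δ` for all `0 ≤ k ≤ β (1 - δ) log n`. -/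
noncomputable def Slow (δ β : ℝ) (x : ℕ) : ℕ :=
  {n : ℕ | 1 ≤ n ∧ n ≤ x ∧ ∀ k : ℕ, (k : ℝ) ≤ β * ((1 - δ) * Real.log n) →
    (n : ℝ) ^ δ < ((T^[k] n : ℕ) : ℝ)}.ncard

/-- **Large deviations of the passage time from `n` down to `n ^ δ`**, `0 ≤ δ < 1`
(`δ = 0`: the total stopping time). -/
theorem result (δ ε : ℝ) (hδ0 : 0 ≤ δ) (hδ1 : δ < 1) (hε : 0 < ε) :
    (∀ β : ℝ, 1 / Real.log 2 < β → β < γ₁ → 0 < I β ∧ I β < 1 ∧ ∀ᶠ x : ℕ in Filter.atTop,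
      (x : ℝ) ^ (1 - (1 - δ) * I β - ε) ≤ (Fast δ β x : ℝ) ∧
      (Fast δ β x : ℝ) ≤ (x : ℝ) ^ (1 - (1 - δ) * I β + ε)) ∧
    (∀ β : ℝ, γ₁ ≤ β → β ≤ (1 + min (√δ / 5) (1 / 40)) * γ₁ → ∀ᶠ x : ℕ in Filter.atTop,
      (x : ℝ) ^ (1 - (1 - δ) * I β - ε) ≤ (Slow δ β x : ℝ) ∧
      (Slow δ β x : ℝ) ≤ (x : ℝ) ^ (1 - (1 - δ) * I β + ε)) ∧
    (∀ β : ℝ, γ₁ < β → 0 < I β ∧ (I β < 1 → ∀ᶠ x : ℕ in Filter.atTop,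
      (x : ℝ) ^ (1 - (1 - δ) * I β - ε) ≤ (Slow δ β x : ℝ))) :=
  ⟨fun _ h1 h2 => ⟨(Pool.Agent.Collatz3.SB.rate_fast h1 h2).1,
      (Pool.Agent.Collatz3.SB.rate_fast h1 h2).2,
      Pool.Agent.Collatz3.SB.fast_law hδ0 hδ1 h1 h2 hε⟩,
    fun _ h1 h2 => Pool.Agent.Collatz3.SB.slow_law hδ0 hδ1 h1 h2 hε,
    fun _ h1 => ⟨Pool.Agent.Collatz3.SB.rate_slow h1,
      fun h2 => Pool.Agent.Collatz3.SB.slow_low hδ0 hδ1 h1.le h2 hε⟩⟩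

end Pool.Agent.Results.MP_f7abf1_nt.LargeDeviations
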