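import Mathlib
import Pool.Agent.Collatz3.FWCltFin
import Pool.Agent.LLT.QAll
import Pool.Agent.LLT.QMod
import Pool.Agent.LLT.ModM
import Pool.Agent.LLT.QLev

set_option autoImplicit false

namespace Pool.Agent.Results.MP_f7abf1_nt.LocalLimitClasses

open Filter Topology

/-- The 3x+1 function. -/
def T (m : ℕ) : ℕ := if m % 2 = 0 then m / 2 else (3 * m + 1) / 2

/-- The number of the integers `1 ≤ n ≤ x`, `n ≡ r` modulo `q`, whose orbit meets `F` for the first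
time at one of the `H` times `t, t + m, ..., t + (H - 1) m`. -/
noncomputable def N (F : Finset ℕ) (x q r : ℕ) (t : ℤ) (m H : ℕ) : ℕ :=
  {n : ℕ | 1 ≤ n ∧ n ≤ x ∧ n ≡ r [MOD q] ∧ ∃ k : ℕ, T^[k] n ∈ F ∧ (∀ j < k, T^[j] n ∉ F) ∧
    ∃ b : ℕ, b < H ∧ (k : ℤ) = t + m * b}.ncard

/-- The number of the odd terms among the first `i` terms `r, T r, ..., T^[i - 1] r`. -/
def odds (i r : ℕ) : ℕ := ((Finset.range i).filter fun k => T^[k] r % 2 = 1).card

theorem StTw_mono {δ δ' : ℝ} (h0 : 0 < δ') (h : δ' ≤ δ) (hT : Pool.Agent.LLT.Q.StTw δ) :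
    Pool.Agent.LLT.Q.StTw δ' := by
  intro F j ε hε
  obtain ⟨x₀, hx₀⟩ := hT F j ε hε
  refine ⟨x₀, fun x hx q hq hqx t r => hx₀ x hx q hq (hqx.trans ?_) t r⟩
  rcases Nat.eq_zero_or_pos x with h1 | h1
  · exfalso
    rw [h1, Nat.cast_zero, Real.zero_rpow h0.ne'] at hqx
    have h2 : q = 0 := by
      have h3 : (q : ℝ) = 0 := le_antisymm hqx (Nat.cast_nonneg q)
      exact_mod_cast h3
    exact hq (h2 ▸ dvd_zero _)
  · exact Real.rpow_le_rpow_of_exponent_le (by exact_mod_cast h1) h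

theorem N_zero (F : Finset ℕ) (x q r : ℕ) (t : ℤ) (m : ℕ) : N F x q r t m 0 = 0 := by
  unfold N
  rw [Set.ncard_eq_zero ((Set.finite_Iic x).subset fun n hn => hn.2.1)]
  rw [Set.eq_empty_iff_forall_notMem]
  rintro n ⟨-, -, -, k, -, -, b, h1, -⟩
  omega

theorem N_succ (F : Finset ℕ) (x q r : ℕ) (t : ℤ) {m : ℕ} (hm : 1 ≤ m) (H : ℕ) :
    N F x q r t m (H + 1) = N F x q r t m H + N F x q r (t + m * H) 1 1 := by
  unfold N
  rw [← Set.ncard_union_eq _ ((Set.finite_Iic x).subset fun n hn => hn.2.1)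
    ((Set.finite_Iic x).subset fun n hn => hn.2.1)]
  · congr 1
    ext n
    constructor
    · rintro ⟨h1, h2, h2', k, h3, h4, b, h5, h6⟩
      rcases Nat.lt_succ_iff_lt_or_eq.1 h5 with h | h
      · exact Or.inl ⟨h1, h2, h2', k, h3, h4, b, h, h6⟩
      · refine Or.inr ⟨h1, h2, h2', k, h3, h4, 0, Nat.zero_lt_one, ?_⟩
        rw [h6, h]
        simp
    · rintro (⟨h1, h2, h2', k, h3, h4, b, h5, h6⟩ | ⟨h1, h2, h2', k, h3, h4, b, h5, h6⟩)
      · exact ⟨h1, h2, h2', k, h3, h4, b, Nat.lt_succ_of_lt h5, h6⟩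
      · refine ⟨h1, h2, h2', k, h3, h4, H, Nat.lt_succ_self H, ?_⟩
        have hb : b = 0 := by omega
        rw [h6, hb]
        simp
  · rw [Set.disjoint_left]
    rintro n ⟨-, -, -, k, h3, h4, b, h5, h6⟩ ⟨-, -, -, k', h3', h4', b', h5', h6'⟩
    have hb : b' = 0 := by omega
    rw [hb] at h6'
    have h7 : (m : ℤ) * b < m * H := by
      apply mul_lt_mul_of_pos_left _ (by exact_mod_cast hm)
      exact_mod_cast h5
    have h8 : k < k' := by
      have : (k : ℤ) < k' := by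
        rw [h6, h6']
        push_cast
        linarith
      exact_mod_cast this
    exact h4' k h8 h3

theorem N_one (F : Finset ℕ) (x q r : ℕ) (t : ℤ) :
    (N F x q r t 1 1 : ℝ) = Pool.Agent.LLT.Q.cntq F x t q r := by
  have hT : T = Pool.Agent.Collatz3.FW.Tn := rfl
  unfold N Pool.Agent.LLT.Q.cntq
  rw [hT]
  congr 2
  ext n
  constructor
  · rintro ⟨h1, h2, h2', k, h3, h4, b, h5, h6⟩
    have hb : b = 0 := by omega
    rw [hb] at h6
    exact ⟨h1, h2, h2', k, by simpa using h6, h3, h4⟩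
  · rintro ⟨h1, h2, h2', k, h3, h4, h5⟩
    exact ⟨h1, h2, h2', k, h4, h5, 0, Nat.zero_lt_one, by simpa using h3⟩

theorem N_one_one (F : Finset ℕ) (x : ℕ) (t : ℤ) :
    (N F x 1 0 t 1 1 : ℝ) = Pool.Agent.LLT.cnt F x t := by
  rw [N_one]
  unfold Pool.Agent.LLT.Q.cntq Pool.Agent.LLT.cnt
  congr 2
  ext n
  constructor
  · rintro ⟨h1, h2, -, h3⟩
    exact ⟨h1, h2, h3⟩
  · rintro ⟨h1, h2, h3⟩
    exact ⟨h1, h2, Nat.modEq_one, h3⟩

theorem N_sum (F : Finset ℕ) (x q r : ℕ) (t : ℤ) {m : ℕ} (hm : 1 ≤ m) (H : ℕ) :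
    (N F x q r t m H : ℝ) =
      ∑ b ∈ Finset.range H, Pool.Agent.LLT.Q.cntq F x (t + m * b) q r := by
  induction H with
  | zero => simp [N_zero]
  | succ H ih =>
    rw [N_succ F x q r t hm, Finset.sum_range_succ, ← ih, ← N_one]
    push_cast
    rfl

/-- The local limit theorem for the hitting times of the 3x+1 map (the total stopping time is the
case of the single target `1`), in all residue classes modulo the `q ≤ x ^ δ` not divisible by
`2 ^ (j + 1)`, and for the times in an arithmetic progression; and the reduction of the classes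
modulo `2 ^ i * q₁`, `q₁` odd, to the counts of all integers at the scale `3 ^ a * x / 2 ^ i`. -/
theorem result : ∃ c : ℝ, 0 < c ∧ ∃ δ : ℕ → ℝ, (∀ B : ℕ, 0 < δ B) ∧ ∃ d : Finset ℕ → ℝ,
    (∀ F : Finset ℕ, Tendsto (fun x : ℕ =>
      ({n : ℕ | 1 ≤ n ∧ n ≤ x ∧ ∃ k : ℕ, T^[k] n ∈ F}.ncard : ℝ) / x) atTop (𝓝 (d F))) ∧
    (∀ F : Finset ℕ, ∀ a ∈ F, 0 < a → ¬ 3 ∣ a → c / a ≤ d F) ∧
    Tendsto (fun M : ℕ => d (Finset.Icc 1 M)) atTop (𝓝 1) ∧
    ∀ F : Finset ℕ, (∀ j : ℕ,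
      (∀ m : ℕ, 1 ≤ m → ∀ ε : ℝ, 0 < ε → ∃ H₀ : ℕ, ∀ H : ℕ, H₀ ≤ H →
        ∃ x₀ : ℕ, ∀ x : ℕ, x₀ ≤ x →
        ∀ (q r : ℕ) (t : ℤ), ¬ 2 ^ (j + 1) ∣ q → (q : ℝ) ≤ (x : ℝ) ^ δ 0 →
          |(N F x q r t m H : ℝ) - d F * (x * H) /
              (q * √(2 * Real.pi * (2 * Real.log 3 ^ 2 / Real.log (4 / 3) ^ 3) * Real.log x)) *
              Real.exp (-(t - 2 / Real.log (4 / 3) * Real.log x) ^ 2 /
                (2 * (2 * Real.log 3 ^ 2 / Real.log (4 / 3) ^ 3) * Real.log x))| ≤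
            ε * (x * H) / (q * √(Real.log x))) ∧
      (∀ ε : ℝ, 0 < ε → ∃ x₀ : ℕ, ∀ x : ℕ, x₀ ≤ x → ∀ (q r : ℕ) (t : ℤ),
        ¬ 2 ^ (j + 1) ∣ q → (q : ℝ) ≤ (x : ℝ) ^ δ 0 →
          |(N F x q r t 1 1 : ℝ) - N F x 1 0 t 1 1 / q| ≤ ε * x / (q * √(Real.log x))) ∧
      (∃ C : ℝ, ∃ x₀ : ℕ, ∀ x : ℕ, x₀ ≤ x → ∀ (q r : ℕ) (t : ℤ),
        ¬ 2 ^ (j + 1) ∣ q → (q : ℝ) ≤ (x : ℝ) ^ δ 0 →
          (N F x q r t 1 1 : ℝ) ≤ C * x / (q * √(Real.log x))) ∧
      (0 < d F → ∀ R : ℝ, ∃ C' : ℝ, 0 < C' ∧ ∃ x₀ : ℕ, ∀ x : ℕ, x₀ ≤ x →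
        ∀ (q r : ℕ) (t : ℤ), ¬ 2 ^ (j + 1) ∣ q → (q : ℝ) ≤ (x : ℝ) ^ δ 0 →
          |(t : ℝ) - 2 / Real.log (4 / 3) * Real.log x| ≤ R * √(Real.log x) →
            C' * x / (q * √(Real.log x)) ≤ (N F x q r t 1 1 : ℝ))) ∧
      ∀ B : ℕ, ∃ C : ℝ, ∃ x₀ : ℕ, ∀ x : ℕ, x₀ ≤ x → ∀ (i q₁ r : ℕ) (t : ℤ),
        Odd q₁ → 2 ^ i * (q₁ : ℝ) ≤ (x : ℝ) ^ δ B → ∀ a X : ℕ, a = odds i r →
          X = 3 ^ a * x / 2 ^ i →
            |(N F x (2 ^ i * q₁) r t 1 1 : ℝ) - N F X 1 0 (t - i) 1 1 / (3 ^ a * q₁)| ≤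
              C * x / (2 ^ i * q₁ * Real.log x ^ B) := by
  obtain ⟨c, hc, d, h1, h2, h3, -⟩ := Pool.Agent.Collatz3.FW.hitting_clt
  have hT : T = Pool.Agent.Collatz3.FW.Tn := rfl
  obtain ⟨δ', hδ', hTw'⟩ := Pool.Agent.LLT.Q.qtw Pool.Agent.LLT.Q.all_QAL
  choose δl hδl hlev using Pool.Agent.LLT.Q.lev Pool.Agent.LLT.Q.all_QAL
  have hTw : Pool.Agent.LLT.Q.StTw (min δ' (δl 0)) :=
    StTw_mono (lt_min hδ' (hδl 0)) (min_le_left _ _) hTw'
  refine ⟨c, hc, fun B => min δ' (δl B), fun B => lt_min hδ' (hδl B), d, ?_, h2, h3,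
    fun F => ⟨fun j => ?_, fun B => ?_⟩⟩
  · rw [hT]
    exact h1
  · obtain ⟨d', k1, k⟩ := Pool.Agent.LLT.Q.lltj hTw F
    have hd : d' = d F := tendsto_nhds_unique k1 (h1 F)
    subst hd
    obtain ⟨k2, k3, -⟩ := k j
    obtain ⟨d'', k1', k4⟩ := Pool.Agent.LLT.mod_window F
    have hd' : d'' = d F := tendsto_nhds_unique k1' (h1 F)
    subst hd'
    have hq0' : ∀ q : ℕ, ¬ 2 ^ (j + 1) ∣ q → (0 : ℝ) < q := by
      intro q hq
      rcases Nat.eq_zero_or_pos q with h | h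
      · exact absurd (h ▸ dvd_zero _) hq
      · exact_mod_cast h
    refine ⟨fun m hm ε hε => ?_, fun ε hε => ?_, ?_, fun hpos R => ?_⟩
    · obtain ⟨H₀, hH⟩ := k4 m hm (ε / 2) (half_pos hε)
      refine ⟨H₀, fun H hHH => ?_⟩
      obtain ⟨x₀, hx₀⟩ := hH H hHH
      obtain ⟨x₁, hx₁⟩ := hTw F j (ε / 2) (half_pos hε)
      refine ⟨max 2 (max x₀ x₁), fun x hx q r t hq hqx => ?_⟩
      have hx2 : 2 ≤ x := (le_max_left _ _).trans hx
      have hxa : x₀ ≤ x := (le_max_left _ _).trans ((le_max_right _ _).trans hx)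
      have hxb : x₁ ≤ x := (le_max_right _ _).trans ((le_max_right _ _).trans hx)
      have hq0 := hq0' q hq
      have hs : 0 < √(Real.log x) := Real.sqrt_pos.2 (Real.log_pos (by
        have : (2 : ℝ) ≤ x := by exact_mod_cast hx2
        linarith))
      have a1 := hx₀ x t hxa
      have a2 : |∑ b ∈ Finset.range H, Pool.Agent.LLT.Q.cntq F x (t + m * b) q r -
          (∑ b ∈ Finset.range H, Pool.Agent.LLT.cnt F x (t + m * b)) / q| ≤
          ε / 2 * (x * H) / (q * √(Real.log x)) := by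
        rw [Finset.sum_div, ← Finset.sum_sub_distrib]
        refine (Finset.abs_sum_le_sum_abs _ _).trans ?_
        calc _ ≤ ∑ _b ∈ Finset.range H, ε / 2 * x / (q * √(Real.log x)) :=
              Finset.sum_le_sum fun b _ => hx₁ x hxb q hq hqx _ r
          _ = _ := by
              rw [Finset.sum_const, Finset.card_range, nsmul_eq_mul]
              ring
      obtain ⟨S, hS⟩ : ∃ S : ℝ, S = ∑ b ∈ Finset.range H,
        Pool.Agent.LLT.cnt F x (t + m * b) := ⟨_, rfl⟩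
      obtain ⟨E, hE⟩ : ∃ E : ℝ, E = Real.exp (-(t - 2 / Real.log (4 / 3) * Real.log x) ^ 2 /
                (2 * (2 * Real.log 3 ^ 2 / Real.log (4 / 3) ^ 3) * Real.log x)) := ⟨_, rfl⟩
      obtain ⟨W, hW⟩ : ∃ W : ℝ, W = √(2 * Real.pi * (2 * Real.log 3 ^ 2 /
        Real.log (4 / 3) ^ 3) * Real.log x) := ⟨_, rfl⟩
      have a3 : |S - d F * (x * H) / W * E| ≤ ε / 2 * (x * H) / √(Real.log x) := by
        rw [hS, hW, hE]
        exact a1
      rw [← hS] at a2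
      rw [N_sum F x q r t hm, ← hE, ← hW]
      have a4 : |S / q - d F * (x * H) / (q * W) * E| ≤ ε / 2 * (x * H) / (q * √(Real.log x)) := by
        have e1 : S / q - d F * (x * H) / (q * W) * E = (S - d F * (x * H) / W * E) / q := by
          field_simp
        have e2 : ε / 2 * (x * H) / (q * √(Real.log x)) =
            ε / 2 * (x * H) / √(Real.log x) / q := by
          field_simp
        rw [e1, e2, abs_div, abs_of_pos hq0]
        exact div_le_div_of_nonneg_right a3 hq0.le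
      have a5 := abs_le.1 a2
      have a6 := abs_le.1 a4
      have e3 : ε * (x * H) / (q * √(Real.log x)) = ε / 2 * (x * H) / (q * √(Real.log x)) +
          ε / 2 * (x * H) / (q * √(Real.log x)) := by ring
      rw [e3, abs_le]
      constructor
      · linarith [a5.1, a6.1]
      · linarith [a5.2, a6.2]
    · obtain ⟨x₀, hx₀⟩ := hTw F j ε hε
      refine ⟨x₀, fun x hx q r t hq hqx => ?_⟩
      rw [N_one, N_one_one]
      exact hx₀ x hx q hq hqx t r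
    · obtain ⟨C, x₀, hC⟩ := k2
      refine ⟨C, x₀, fun x hx q r t hq hqx => ?_⟩
      rw [N_one]
      exact hC x t q r hx hq hqx
    · obtain ⟨C', hC', x₀, h⟩ := k3 hpos R
      refine ⟨C', hC', x₀, fun x hx q r t hq hqx ht => ?_⟩
      rw [N_one]
      exact h x t q r hx hq hqx ht
  · obtain ⟨C, x₀, h⟩ := hlev B F
    refine ⟨C, max x₀ 1, fun x hx i q₁ r t hq hqx a X ha hX => ?_⟩
    have hx1 : (1 : ℝ) ≤ x := by exact_mod_cast (le_max_right _ _).trans hx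
    have h4 : ((2 ^ i * q₁ : ℕ) : ℝ) ≤ (x : ℝ) ^ δl B := by
      push_cast
      exact hqx.trans (Real.rpow_le_rpow_of_exponent_le hx1 (min_le_right _ _))
    have h5 := h x i q₁ r t ((le_max_left _ _).trans hx) hq h4
    have h6 : Pool.Agent.LLT.Q.os i r = a := by
      rw [ha]
      rfl
    rw [h6, ← hX] at h5
    rw [N_one, N_one_one]
    push_cast at h5
    exact h5

end Pool.Agent.Results.MP_f7abf1_nt.LocalLimitClasses
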