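import Mathlib
import Pool.Agent.Collatz3.PFResQ

set_option autoImplicit false

namespace Pool.Agent.Results.MP_f7abf1_nt.Profiles

open Real Filter

/-- The 3x+1 function. -/
def T (m : ℕ) : ℕ := if m % 2 = 0 then m / 2 else (3 * m + 1) / 2

/-- The Legendre transform of `log ((2^θ + (2/3)^θ) / 2)`. -/
noncomputable def g (v : ℝ) : ℝ :=
  ⨆ θ : ℝ, (θ * v - log ((1 / 2) * ((2 : ℝ) ^ θ + (2 / 3 : ℝ) ^ θ)))

/-- For the list `l` of the pairs `(v_i, c_i)`: the continuous function that vanishes for `τ ≤ 0`,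
has slope `v_i` on the `i`-th of the successive intervals of lengths `c_i` from `0` on, and is
constant afterwards. -/
noncomputable def height : List (ℝ × ℝ) → ℝ → ℝ
  | [], _ => 0
  | q :: l, τ => q.1 * min (max τ 0) q.2 + height l (τ - q.2)

/-- In every residue class modulo every `q`: orbits of the 3x+1 map that follow a given decreasing
profile down to `a`, with the exponent of the random walk model; the last two clauses are the lower
half of the conjecture, for the integers of the class. -/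
theorem result : ∃ γ₀ : ℝ,
    (γ₀ > ((1 / 2) * log (4 / 3))⁻¹ ∧ γ₀ * g (1 / γ₀) = 1) ∧
    (∀ γ : ℝ, γ > ((1 / 2) * log (4 / 3))⁻¹ → γ * g (1 / γ) = 1 → γ = γ₀) ∧
    ∀ a : ℕ, 0 < a → ¬ 3 ∣ a → ∀ q r : ℕ, 0 < q →
      (∀ l : List (ℝ × ℝ), (∀ p ∈ l, 1 / γ₀ < p.1 ∧ p.1 < log 2 ∧ 0 < p.2) →
        (l.map fun p => p.1 * p.2).sum = 1 → ∀ ε : ℝ, ε > 0 → ∀ᶠ x : ℕ in atTop,
          (x : ℝ) ^ (1 - (l.map fun p => p.2 * g p.1).sum - ε) ≤
            ({n : ℕ | 1 ≤ n ∧ n ≤ x ∧ n ≡ r [MOD q] ∧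
              ∃ K : ℕ, T^[K] n = a ∧ (∀ k < K, T^[k] n ≠ a) ∧
              |(K : ℝ) - (l.map Prod.snd).sum * log x| ≤ ε * log x ∧
              ∀ k ≤ K, |log (T^[k] n : ℕ) - log x * height l ((K - k) / log x)| ≤
                ε * log x}.ncard : ℝ)) ∧
      (∀ ε : ℝ, ε > 0 → ∀ N : ℕ, ∃ n : ℕ, N ≤ n ∧ n ≡ r [MOD q] ∧ (∃ k : ℕ, T^[k] n = a) ∧
        ∀ k : ℕ, T^[k] n = a → (γ₀ - ε) * log n ≤ k) ∧
      (∀ α : ℝ, α > ((1 / 2) * log (4 / 3))⁻¹ → α < γ₀ → ∀ ε : ℝ, ε > 0 →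
        ∀ᶠ x : ℕ in atTop, (x : ℝ) ^ (1 - α * g (1 / α) - ε) ≤
          ({n : ℕ | 1 ≤ n ∧ n ≤ x ∧ n ≡ r [MOD q] ∧ (∃ k : ℕ, T^[k] n = a) ∧
            ∀ k : ℕ, T^[k] n = a → α * log n ≤ k}.ncard : ℝ)) := by
  have hT : T = Pool.Agent.Collatz3.T3 := rfl
  have hg : g = Pool.Agent.Collatz3.Leg.gL := rfl
  have hh : ∀ (l : List (ℝ × ℝ)) (τ : ℝ), Pool.Agent.Collatz3.PF.height l τ = height l τ := by
    intro l
    induction l with
    | nil => intro τ; rfl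
    | cons q l ih =>
      intro τ
      simp only [Pool.Agent.Collatz3.PF.height, height]
      rw [ih]
  obtain ⟨γ₀, h1, h2, h3⟩ := Pool.Agent.Collatz3.PF.final3
  rw [hT, hg]
  refine ⟨γ₀, h1, h2, fun a ha h3a q r hq => ?_⟩
  obtain ⟨c1, c2, c3⟩ := h3 a ha h3a q r hq
  refine ⟨fun l hl hs ε hε => ?_, fun ε hε N => c2 ε hε N, fun α hα hαγ ε hε => ?_⟩
  · have h4 := tendsto_natCast_atTop_atTop.eventually (c1 l hl hs ε hε)
    filter_upwards [h4] with x hx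
    simp only [hh, Nat.cast_le] at hx
    exact hx
  · have h5 := tendsto_natCast_atTop_atTop.eventually (c3 α hα hαγ ε hε)
    filter_upwards [h5] with x hx
    simp only [Nat.cast_le] at hx
    exact hx

end Pool.Agent.Results.MP_f7abf1_nt.Profiles
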