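import Mathlib
import Pool.Agent.UTL.FinV
import Pool.Agent.UTL.LowA
import Pool.Agent.UTL.Pst

set_option autoImplicit false

namespace Pool.Agent.Results.MP_f7abf1_nt.UniformTail

/-- The `3x+1` function. -/
def T (n : ℕ) : ℕ := if n % 2 = 0 then n / 2 else (3 * n + 1) / 2

/-- `γ₁ = (½ log (4/3))⁻¹`. -/
noncomputable def γ₁ : ℝ := ((1 / 2) * Real.log (4 / 3))⁻¹

/-- `V = 2 (log 3)² / (log (4/3))³`. -/
noncomputable def V : ℝ := 2 * Real.log 3 ^ 2 / Real.log (4 / 3) ^ 3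

/-- The number of the integers `1 ≤ n ≤ x` with `T^(k)(n) > M` for all `0 ≤ k ≤ s`. -/
noncomputable def N (x M s : ℝ) : ℕ :=
  {n : ℕ | 1 ≤ n ∧ (n : ℝ) ≤ x ∧ ∀ k : ℕ, (k : ℝ) ≤ s → M < (T^[k] n : ℝ)}.ncard

theorem γ₁_eq : γ₁ = Pool.Agent.UTL.g1 := by
  unfold γ₁ Pool.Agent.UTL.g1
  rw [mul_inv, one_div, inv_inv]
  exact (div_eq_mul_inv _ _).symm

/-- **The upper tail of the passage times of the `3x+1` function, uniformly in the level `M`.**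
1. (the plain form, all levels `M ≥ 1`)
2. (upper bound, moderate deviations)
3. (lower bound, speeds near `γ₁`: the constant `V` is right). -/
theorem result :
    (∀ θ : ℝ, 1 / 2 < θ → θ < 1 → ∃ C c : ℝ, 0 < c ∧ ∀ x M : ℝ, C ≤ x → 1 ≤ M →
      (N x M (γ₁ * Real.log x + Real.log x ^ θ) : ℝ) ≤
        C * x * (M ^ (-c) + Real.exp (-c * Real.log x ^ (2 * θ - 1)))) ∧
    ∀ ε δ : ℝ, 0 < ε → 0 < δ → δ < 1 →
    (∃ C c : ℝ, 0 < c ∧ ∀ x M t : ℝ, C ≤ x → 1 ≤ M → M ≤ x ^ δ →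
      C * Real.log (Real.log x) * √(Real.log (x / M)) ≤ t →
        (N x M (γ₁ * Real.log (x / M) + t) : ℝ) ≤
          x * Real.exp (-(1 - ε) * t ^ 2 / (2 * V * Real.log (x / M))) + C * x * M ^ (-c)) ∧
    (∃ s₀ : ℝ, 0 < s₀ ∧ ∀ s : ℝ, 0 < s → s ≤ s₀ → ∃ x₀ : ℝ, ∀ x M : ℝ, x₀ ≤ x → 1 ≤ M →
      M ≤ x ^ δ → x * Real.exp (-(1 + ε) * s ^ 2 * Real.log (x / M) / (2 * V)) ≤
        (N x M ((γ₁ + s) * Real.log (x / M)) : ℝ)) := by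
  refine ⟨?_, fun ε δ hε hδ hδ1 => ⟨?_, ?_⟩⟩
  · rw [γ₁_eq]
    exact fun θ h1 h2 => Pool.Agent.UTL.pass h1 h2
  · rw [γ₁_eq]
    exact Pool.Agent.UTL.main_V ε δ hε hδ hδ1
  · rw [γ₁_eq]
    exact Pool.Agent.UTL.main_Lower ε δ hε hδ hδ1

end Pool.Agent.Results.MP_f7abf1_nt.UniformTail
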